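import Pool.Agent.Q52.HE.Stm

set_option autoImplicit false

/-!
# Job J-INJ of the project HE (helper52)
-/

namespace Pool.Agent.Q238.HE

open Finset Pool.Agent.Q52.HE

section

variable {K : Type} [Field K]

theorem nd_ne {x y : Fin 5 → K} (h : ND x y) (i : Fin 5) : ¬ (x i = 0 ∧ y i = 0) := by
  rintro ⟨h1, h2⟩
  obtain ⟨j, hj⟩ : ∃ j : Fin 5, i ≠ j := by
    by_cases hi : i = 0
    · exact ⟨1, by rw [hi]; decide⟩
    · exact ⟨0, hi⟩
  apply h i j hj
  rw [h1, h2]
  ring

theorem nd_x {x y : Fin 5 → K} (h : ND x y) (i j : Fin 5) (hij : i ≠ j) (hi : x i = 0) :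
    x j ≠ 0 := by
  intro hj
  apply h i j hij
  rw [hi, hj]
  ring

theorem nd_y {x y : Fin 5 → K} (h : ND x y) (i j : Fin 5) (hij : i ≠ j) (hi : y i = 0) :
    y j ≠ 0 := by
  intro hj
  apply h i j hij
  rw [hi, hj]
  ring

theorem mem_ell {v : Fin 4 → K} (hv : v ∈ ell (K := K)) : v 2 = 0 ∧ v 3 = 0 := by
  obtain ⟨a, b, rfl⟩ := Submodule.mem_span_pair.mp hv
  constructor <;> simp

theorem mem_lineL {x y : Fin 5 → K} {i : Fin 5} {e : K} {v : Fin 4 → K}
    (hv : v ∈ lineL x y i e) : ∃ a b : K, v 0 = a * y i - b * (e * others y i * x i ^ 3) ∧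
      v 1 = -(a * (e * x i)) - b * (e * others x i * y i ^ 3) ∧ v 2 = b * x i ^ 2 ∧
      v 3 = b * y i ^ 2 := by
  obtain ⟨a, b, rfl⟩ := Submodule.mem_span_pair.mp hv
  refine ⟨a, b, ?_, ?_, ?_, ?_⟩
  · simp
    ring
  · simp
    ring
  · simp
  · simp

theorem mem_lineM {c y : Fin 5 → K} {v : Fin 4 → K} (hv : v ∈ lineM c y) :
    v 0 = v 2 * pc c y 1 + v 3 * pc c y 3 ∧ v 1 = v 2 * pc c y 2 + v 3 * pc c y 4 := by
  obtain ⟨a, b, rfl⟩ := Submodule.mem_span_pair.mp hv
  constructor <;> simp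

theorem lineL_one (x y : Fin 5 → K) (i : Fin 5) (e : K) :
    ![y i, -e * x i, 0, 0] ∈ lineL x y i e :=
  Submodule.subset_span (Or.inl rfl)

theorem lineL_two (x y : Fin 5 → K) (i : Fin 5) (e : K) :
    ![-e * others y i * x i ^ 3, -e * others x i * y i ^ 3, x i ^ 2, y i ^ 2] ∈
      lineL x y i e :=
  Submodule.subset_span (Or.inr rfl)

theorem lineM_one (c y : Fin 5 → K) : ![pc c y 1, pc c y 2, 1, 0] ∈ lineM c y :=
  Submodule.subset_span (Or.inl rfl)

theorem lineM_two (c y : Fin 5 → K) : ![pc c y 3, pc c y 4, 0, 1] ∈ lineM c y :=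
  Submodule.subset_span (Or.inr rfl)

theorem ell_ne_lineL {x y : Fin 5 → K} (h : ND x y) (i : Fin 5) (e : K) :
    ell (K := K) ≠ lineL x y i e := by
  intro he
  have h1 := lineL_two x y i e
  rw [← he] at h1
  obtain ⟨h2, h3⟩ := mem_ell h1
  have h2' : x i ^ 2 = 0 := h2
  have h3' : y i ^ 2 = 0 := h3
  exact nd_ne h i ⟨pow_eq_zero_iff (two_ne_zero) |>.mp h2', pow_eq_zero_iff (two_ne_zero) |>.mp h3'⟩

theorem ell_ne_lineM (c y : Fin 5 → K) : ell (K := K) ≠ lineM c y := by
  intro he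
  have h1 := lineM_one c y
  rw [← he] at h1
  have h2 : (1 : K) = 0 := (mem_ell h1).1
  exact one_ne_zero h2

theorem lineL_ne_lineM {x y : Fin 5 → K} (h : ND x y) (i : Fin 5) (e : K)
    (he : e = 1 ∨ e = -1) (c : Fin 5 → K) : lineL x y i e ≠ lineM c y := by
  intro hc
  have h1 := lineL_one x y i e
  rw [hc] at h1
  obtain ⟨h2, h3⟩ := mem_lineM h1
  have h2' : y i = 0 * pc c y 1 + 0 * pc c y 3 := h2
  have h3' : -e * x i = 0 * pc c y 2 + 0 * pc c y 4 := h3
  refine nd_ne h i ⟨?_, by rw [h2']; ring⟩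
  have h4 : e * x i = 0 := by linear_combination -h3'
  rcases he with rfl | rfl
  · linear_combination h4
  · linear_combination -h4

theorem unit_inj (h2 : (2 : K) ≠ 0) {e e' : ℤˣ} (key : ((e : ℤ) : K) = ((e' : ℤ) : K)) :
    e = e' := by
  rcases Int.units_eq_one_or e with rfl | rfl
  · rcases Int.units_eq_one_or e' with rfl | rfl
    · rfl
    · exfalso
      apply h2
      push_cast at key
      linear_combination key
  · rcases Int.units_eq_one_or e' with rfl | rfl
    · exfalso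
      apply h2
      push_cast at key
      linear_combination -key
    · rfl

theorem lineL_inj {x y : Fin 5 → K} (h2 : (2 : K) ≠ 0) (h : ND x y) (i i' : Fin 5) (e e' : ℤˣ)
    (heq : lineL x y i ((e : ℤ) : K) = lineL x y i' ((e' : ℤ) : K)) : i = i' ∧ e = e' := by
  have hi : i = i' := by
    by_contra hne
    have h1 := lineL_two x y i' ((e' : ℤ) : K)
    rw [← heq] at h1
    obtain ⟨a, b, -, -, h3, h4⟩ := mem_lineL h1
    have h3' : x i' ^ 2 = b * x i ^ 2 := h3
    have h4' : y i' ^ 2 = b * y i ^ 2 := h4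
    apply h i i' hne
    rw [h3', h4']
    ring
  subst hi
  refine ⟨rfl, ?_⟩
  -- the signs
  have key : ((e : ℤ) : K) = ((e' : ℤ) : K) := by
    have h1 := lineL_two x y i ((e' : ℤ) : K)
    rw [← heq] at h1
    obtain ⟨a, b, h5, h6, h3, h4⟩ := mem_lineL h1
    have h3' : x i ^ 2 = b * x i ^ 2 := h3
    have h4' : y i ^ 2 = b * y i ^ 2 := h4
    have h5' : -((e' : ℤ) : K) * others y i * x i ^ 3 =
      a * y i - b * (((e : ℤ) : K) * others y i * x i ^ 3) := h5
    have h6' : -((e' : ℤ) : K) * others x i * y i ^ 3 =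
      -(a * (((e : ℤ) : K) * x i)) - b * (((e : ℤ) : K) * others x i * y i ^ 3) := h6
    by_cases hx : x i = 0
    · have hy : y i ≠ 0 := fun hy => nd_ne h i ⟨hx, hy⟩
      have ho : others x i ≠ 0 := by
        unfold others
        rw [Finset.prod_ne_zero_iff]
        intro j hj
        exact nd_x h i j (Finset.ne_of_mem_erase hj).symm hx
      have hb : b = 1 := by
        have : (b - 1) * y i ^ 2 = 0 := by linear_combination -h4'
        rcases mul_eq_zero.mp this with h7 | h7
        · linear_combination h7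
        · exact absurd (pow_eq_zero_iff (two_ne_zero) |>.mp h7) hy
      have h8 : (((e : ℤ) : K) - ((e' : ℤ) : K)) * (others x i * y i ^ 3) = 0 := by
        rw [hx, hb] at h6'
        linear_combination h6'
      rcases mul_eq_zero.mp h8 with h9 | h9
      · linear_combination h9
      · exact absurd h9 (mul_ne_zero ho (pow_ne_zero _ hy))
    · by_cases hy : y i = 0
      · have ho : others y i ≠ 0 := by
          unfold others
          rw [Finset.prod_ne_zero_iff]
          intro j hj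
          exact nd_y h i j (Finset.ne_of_mem_erase hj).symm hy
        have hb : b = 1 := by
          have : (b - 1) * x i ^ 2 = 0 := by linear_combination -h3'
          rcases mul_eq_zero.mp this with h7 | h7
          · linear_combination h7
          · exact absurd (pow_eq_zero_iff (two_ne_zero) |>.mp h7) hx
        have h8 : (((e : ℤ) : K) - ((e' : ℤ) : K)) * (others y i * x i ^ 3) = 0 := by
          rw [hy, hb] at h5'
          linear_combination h5'
        rcases mul_eq_zero.mp h8 with h9 | h9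
        · linear_combination h9
        · exact absurd h9 (mul_ne_zero ho (pow_ne_zero _ hx))
      · have h7 := lineL_one x y i ((e' : ℤ) : K)
        rw [← heq] at h7
        obtain ⟨a', b', k0, k1, k2, k3⟩ := mem_lineL h7
        have k0' : y i = a' * y i - b' * (((e : ℤ) : K) * others y i * x i ^ 3) := k0
        have k1' : -((e' : ℤ) : K) * x i =
          -(a' * (((e : ℤ) : K) * x i)) - b' * (((e : ℤ) : K) * others x i * y i ^ 3) := k1
        have k2' : 0 = b' * x i ^ 2 := k2
        have hb' : b' = 0 := by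
          rcases mul_eq_zero.mp k2'.symm with h8 | h8
          · exact h8
          · exact absurd (pow_eq_zero_iff (two_ne_zero) |>.mp h8) hx
        rw [hb'] at k0' k1'
        have ha' : a' = 1 := by
          have : (a' - 1) * y i = 0 := by linear_combination -k0'
          rcases mul_eq_zero.mp this with h8 | h8
          · linear_combination h8
          · exact absurd h8 hy
        rw [ha'] at k1'
        have h8 : (((e : ℤ) : K) - ((e' : ℤ) : K)) * x i = 0 := by linear_combination k1'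
        rcases mul_eq_zero.mp h8 with h9 | h9
        · linear_combination h9
        · exact absurd h9 hx
  exact unit_inj h2 key

theorem sg_sq (s : Fin 5 → ℤˣ) (x : Fin 5 → K) (i : Fin 5) : sg s x i ^ 2 = x i ^ 2 := by
  unfold sg
  rcases Int.units_eq_one_or (s i) with h | h
  · rw [h]
    simp
  · rw [h]
    simp

theorem pr_sg (s : Sg) (x : Fin 5 → K) :
    sg s.1 x 0 * sg s.1 x 1 * sg s.1 x 2 * sg s.1 x 3 * sg s.1 x 4 =
      x 0 * x 1 * x 2 * x 3 * x 4 := by
  have h1 : (((s.1 0 * s.1 1 * s.1 2 * s.1 3 * s.1 4 : ℤˣ) : ℤ) : K) = 1 := by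
    have h2 := s.2
    rw [Fin.prod_univ_five] at h2
    rw [h2]
    simp
  push_cast at h1
  unfold sg
  linear_combination (x 0 * x 1 * x 2 * x 3 * x 4) * h1

/-- the product of linear forms -/
theorem pc_eval (c d : Fin 5 → K) (X Y : K) :
    (d 0 * X + c 0 * Y) * (d 1 * X + c 1 * Y) * (d 2 * X + c 2 * Y) * (d 3 * X + c 3 * Y) *
      (d 4 * X + c 4 * Y) = d 0 * d 1 * d 2 * d 3 * d 4 * X ^ 5 + pc c d 1 * X ^ 4 * Y +
      pc c d 2 * X ^ 3 * Y ^ 2 + pc c d 3 * X ^ 2 * Y ^ 3 + pc c d 4 * X * Y ^ 4 +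
      c 0 * c 1 * c 2 * c 3 * c 4 * Y ^ 5 := by
  simp only [pc, Matrix.cons_val]
  ring

theorem lineM_inj {x y : Fin 5 → K} (h2 : (2 : K) ≠ 0) (h : ND x y) (s s' : Sg)
    (heq : lineM (sg s.1 x) y = lineM (sg s'.1 x) y) : s = s' := by
  have e1 := lineM_one (sg s.1 x) y
  have e2 := lineM_two (sg s.1 x) y
  rw [heq] at e1 e2
  obtain ⟨q1, q2⟩ := mem_lineM e1
  obtain ⟨q3, q4⟩ := mem_lineM e2
  have q1' : pc (sg s.1 x) y 1 = 1 * pc (sg s'.1 x) y 1 + 0 * pc (sg s'.1 x) y 3 := q1
  have q2' : pc (sg s.1 x) y 2 = 1 * pc (sg s'.1 x) y 2 + 0 * pc (sg s'.1 x) y 4 := q2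
  have q3' : pc (sg s.1 x) y 3 = 0 * pc (sg s'.1 x) y 1 + 1 * pc (sg s'.1 x) y 3 := q3
  have q4' : pc (sg s.1 x) y 4 = 0 * pc (sg s'.1 x) y 2 + 1 * pc (sg s'.1 x) y 4 := q4
  rw [one_mul, zero_mul, add_zero] at q1' q2'
  rw [one_mul, zero_mul, zero_add] at q3' q4'
  have hev : ∀ X Y : K, (y 0 * X + sg s.1 x 0 * Y) * (y 1 * X + sg s.1 x 1 * Y) *
      (y 2 * X + sg s.1 x 2 * Y) * (y 3 * X + sg s.1 x 3 * Y) * (y 4 * X + sg s.1 x 4 * Y) =
      (y 0 * X + sg s'.1 x 0 * Y) * (y 1 * X + sg s'.1 x 1 * Y) *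
      (y 2 * X + sg s'.1 x 2 * Y) * (y 3 * X + sg s'.1 x 3 * Y) *
      (y 4 * X + sg s'.1 x 4 * Y) := by
    intro X Y
    rw [pc_eval, pc_eval, q1', q2', q3', q4', pr_sg, pr_sg]
  have hprod : ∀ X Y : K, ∏ i, (y i * X + sg s.1 x i * Y) = ∏ i, (y i * X + sg s'.1 x i * Y) := by
    intro X Y
    rw [Fin.prod_univ_five, Fin.prod_univ_five]
    exact hev X Y
  have hc1 : ∀ i, y i ≠ 0 → sg s.1 x i = sg s'.1 x i := by
    intro i hy
    have h3 := hprod (sg s.1 x i) (-y i)
    have h4 : ∏ j, (y j * sg s.1 x i + sg s.1 x j * (-y i)) = 0 := by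
      refine Finset.prod_eq_zero (Finset.mem_univ i) ?_
      ring
    rw [h4] at h3
    obtain ⟨j, -, hj⟩ := Finset.prod_eq_zero_iff.mp h3.symm
    have h5 : sg s.1 x i * y j = sg s'.1 x j * y i := by linear_combination hj
    have h6 : x i ^ 2 * y j ^ 2 = x j ^ 2 * y i ^ 2 := by
      rw [← sg_sq s.1 x i, ← sg_sq s'.1 x j, ← mul_pow, ← mul_pow, h5]
    have hij : i = j := by
      by_contra hne
      exact h i j hne h6
    rw [← hij] at h5
    exact mul_right_cancel₀ hy h5
  have hc : ∀ i, sg s.1 x i = sg s'.1 x i := by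
    intro i
    by_cases hy : y i = 0
    · have hne : ∀ j, i ≠ j → y j ≠ 0 := fun j hij => nd_y h i j hij hy
      simp only [pc, Matrix.cons_val] at q1'
      fin_cases i
      · change y 0 = 0 at hy
        rw [hy] at q1'
        have h4 : (sg s.1 x 0 - sg s'.1 x 0) * (y 1 * y 2 * y 3 * y 4) = 0 := by
          linear_combination q1'
        have h5 : y 1 * y 2 * y 3 * y 4 ≠ 0 := mul_ne_zero (mul_ne_zero (mul_ne_zero
          (hne 1 (by decide)) (hne 2 (by decide))) (hne 3 (by decide))) (hne 4 (by decide))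
        exact sub_eq_zero.mp ((mul_eq_zero.mp h4).resolve_right h5)
      · change y 1 = 0 at hy
        rw [hy] at q1'
        have h4 : (sg s.1 x 1 - sg s'.1 x 1) * (y 0 * y 2 * y 3 * y 4) = 0 := by
          linear_combination q1'
        have h5 : y 0 * y 2 * y 3 * y 4 ≠ 0 := mul_ne_zero (mul_ne_zero (mul_ne_zero
          (hne 0 (by decide)) (hne 2 (by decide))) (hne 3 (by decide))) (hne 4 (by decide))
        exact sub_eq_zero.mp ((mul_eq_zero.mp h4).resolve_right h5)
      · change y 2 = 0 at hy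
        rw [hy] at q1'
        have h4 : (sg s.1 x 2 - sg s'.1 x 2) * (y 0 * y 1 * y 3 * y 4) = 0 := by
          linear_combination q1'
        have h5 : y 0 * y 1 * y 3 * y 4 ≠ 0 := mul_ne_zero (mul_ne_zero (mul_ne_zero
          (hne 0 (by decide)) (hne 1 (by decide))) (hne 3 (by decide))) (hne 4 (by decide))
        exact sub_eq_zero.mp ((mul_eq_zero.mp h4).resolve_right h5)
      · change y 3 = 0 at hy
        rw [hy] at q1'
        have h4 : (sg s.1 x 3 - sg s'.1 x 3) * (y 0 * y 1 * y 2 * y 4) = 0 := by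
          linear_combination q1'
        have h5 : y 0 * y 1 * y 2 * y 4 ≠ 0 := mul_ne_zero (mul_ne_zero (mul_ne_zero
          (hne 0 (by decide)) (hne 1 (by decide))) (hne 2 (by decide))) (hne 4 (by decide))
        exact sub_eq_zero.mp ((mul_eq_zero.mp h4).resolve_right h5)
      · change y 4 = 0 at hy
        rw [hy] at q1'
        have h4 : (sg s.1 x 4 - sg s'.1 x 4) * (y 0 * y 1 * y 2 * y 3) = 0 := by
          linear_combination q1'
        have h5 : y 0 * y 1 * y 2 * y 3 ≠ 0 := mul_ne_zero (mul_ne_zero (mul_ne_zero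
          (hne 0 (by decide)) (hne 1 (by decide))) (hne 2 (by decide))) (hne 3 (by decide))
        exact sub_eq_zero.mp ((mul_eq_zero.mp h4).resolve_right h5)
    · exact hc1 i hy
  have hs : ∀ i, x i ≠ 0 → s.1 i = s'.1 i := by
    intro i hx
    exact unit_inj h2 (mul_right_cancel₀ hx (hc i))
  by_cases hall : ∀ i, x i ≠ 0
  · exact Subtype.ext (funext fun i => hs i (hall i))
  · obtain ⟨i0, hi0⟩ := not_forall.mp hall
    have hx0 : x i0 = 0 := not_not.mp hi0
    have hoth : ∀ j, j ≠ i0 → s.1 j = s'.1 j := fun j hj =>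
      hs j (nd_x h i0 j hj.symm hx0)
    have hp : ∏ j, s.1 j = ∏ j, s'.1 j := by rw [s.2, s'.2]
    rw [← Finset.mul_prod_erase _ _ (Finset.mem_univ i0),
      ← Finset.mul_prod_erase _ _ (Finset.mem_univ i0)] at hp
    have hp2 : ∏ j ∈ Finset.univ.erase i0, s.1 j = ∏ j ∈ Finset.univ.erase i0, s'.1 j :=
      Finset.prod_congr rfl fun j hj => hoth j (Finset.ne_of_mem_erase hj)
    rw [hp2] at hp
    have h0 : s.1 i0 = s'.1 i0 := mul_right_cancel hp
    refine Subtype.ext (funext fun j => ?_)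
    by_cases hj : j = i0
    · rw [hj]
      exact h0
    · exact hoth j hj

end

theorem inj : S_inj := by
  intro K _ h2 x y h p q hpq
  rcases p with _ | ⟨i, e⟩ | s
  · rcases q with _ | ⟨i', e'⟩ | s'
    · rfl
    · exact absurd hpq (ell_ne_lineL h i' _)
    · exact absurd hpq (ell_ne_lineM _ y)
  · rcases q with _ | ⟨i', e'⟩ | s'
    · exact absurd hpq.symm (ell_ne_lineL h i _)
    · obtain ⟨rfl, rfl⟩ := lineL_inj h2 h i i' e e' hpq
      rfl
    · refine absurd hpq (lineL_ne_lineM h i _ ?_ _)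
      rcases Int.units_eq_one_or e with rfl | rfl
      · left; simp
      · right; simp
  · rcases q with _ | ⟨i', e'⟩ | s'
    · exact absurd hpq.symm (ell_ne_lineM _ y)
    · refine absurd hpq.symm (lineL_ne_lineM h i' _ ?_ _)
      rcases Int.units_eq_one_or e' with rfl | rfl
      · left; simp
      · right; simp
    · rw [lineM_inj h2 h s s' hpq]

end Pool.Agent.Q238.HE
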